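import Pool.Agent.Helper22.G4.Cone
import Pool.Agent.Helper22.G4.GraphDefs

/-! # G4-F2: from 4-polytopes to cones -/

namespace Pool.Agent.Helper50.G4

open Pool.Agent.Helper22.G4 Pool.Agent.Helper89 Submodule

section F2

variable {E : Type*} [AddCommGroup E] [Module ℝ E]

/-- an affine function vanishing on the generators vanishes on the hull -/
theorem f2_zero (X : Set E) (a : ℝ) (l : E →ₗ[ℝ] ℝ) (hX : ∀ z ∈ X, a + l z = 0)
    {x : E} (hx : x ∈ convexHull ℝ X) : a + l x = 0 := by
  have hC : Convex ℝ {z : E | a + l z = 0} := by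
    intro p hp q hq s t hs ht hst
    have hp' : a + l p = 0 := hp
    have hq' : a + l q = 0 := hq
    show a + l (s • p + t • q) = 0
    simp only [map_add, map_smul, smul_eq_mul]
    have h1 : a + (s * l p + t * l q) = s * (a + l p) + t * (a + l q) := by
      have : a = s * a + t * a := by rw [← add_mul, hst, one_mul]
      linarith
    rw [h1, hp', hq']; simp
  exact convexHull_min (fun z hz => hX z hz) hC hx

/-- points of the hull where an affine function, nonnegative on the generators, vanishes -/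
theorem f2_face (X : Set E) (a : ℝ) (l : E →ₗ[ℝ] ℝ) (hX : ∀ z ∈ X, 0 ≤ a + l z)
    {x : E} (hx : x ∈ convexHull ℝ X) :
    0 < a + l x ∨ x ∈ convexHull ℝ {z | z ∈ X ∧ a + l z = 0} := by
  have hC : Convex ℝ ({x | 0 < a + l x} ∪ convexHull ℝ {z | z ∈ X ∧ a + l z = 0}) := by
    have hz : ∀ z ∈ convexHull ℝ {z | z ∈ X ∧ a + l z = 0}, a + l z = 0 := by
      intro z hz
      exact f2_zero _ a l (fun z hz => hz.2) hz
    intro p hp q hq s t hs ht hst
    have key : a + l (s • p + t • q) = s * (a + l p) + t * (a + l q) := by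
      simp only [map_add, map_smul, smul_eq_mul]
      have : a = s * a + t * a := by rw [← add_mul, hst, one_mul]
      linarith
    rcases eq_or_lt_of_le hs with hs0 | hs0
    · have ht1 : t = 1 := by linarith
      subst hs0; subst ht1
      simpa using hq
    rcases eq_or_lt_of_le ht with ht0 | ht0
    · have hs1 : s = 1 := by linarith
      subst ht0; subst hs1
      simpa using hp
    rcases hp with hp | hp
    · left
      show 0 < a + l (s • p + t • q)
      rw [key]
      have h1 : 0 < s * (a + l p) := mul_pos hs0 hp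
      rcases hq with hq | hq
      · have h2 : 0 < t * (a + l q) := mul_pos ht0 hq
        linarith
      · rw [hz q hq]; linarith
    · rcases hq with hq | hq
      · left
        show 0 < a + l (s • p + t • q)
        rw [key, hz p hp]
        have h2 : 0 < t * (a + l q) := mul_pos ht0 hq
        linarith
      · right
        exact (convex_convexHull ℝ _) hp hq hs ht hst
  have hsub : X ⊆ {x | 0 < a + l x} ∪ convexHull ℝ {z | z ∈ X ∧ a + l z = 0} := by
    intro z hz
    rcases eq_or_lt_of_le (hX z hz) with h0 | h0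
    · right
      exact subset_convexHull ℝ _ ⟨hz, h0.symm⟩
    · left; exact h0
  exact convexHull_min hsub hC hx

/-- an affine function nonnegative on the generators is nonnegative on the hull -/
theorem f2_nonneg (X : Set E) (a : ℝ) (l : E →ₗ[ℝ] ℝ) (hX : ∀ z ∈ X, 0 ≤ a + l z)
    {x : E} (hx : x ∈ convexHull ℝ X) : 0 ≤ a + l x := by
  have hC : Convex ℝ {z : E | 0 ≤ a + l z} := by
    intro p hp q hq s t hs ht hst
    have hp' : 0 ≤ a + l p := hp
    have hq' : 0 ≤ a + l q := hq
    show 0 ≤ a + l (s • p + t • q)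
    simp only [map_add, map_smul, smul_eq_mul]
    have h1 : a + (s * l p + t * l q) = s * (a + l p) + t * (a + l q) := by
      have : a = s * a + t * a := by rw [← add_mul, hst, one_mul]
      linarith
    rw [h1]; positivity
  exact convexHull_min (fun z hz => hX z hz) hC hx

end F2

end Pool.Agent.Helper50.G4

namespace Pool.Agent.Helper50.G4

open Pool.Agent.Helper22.G4 Pool.Agent.Helper89 Submodule

/-- G4-F2 -/
theorem conic_of_poly {V : Type} (A : Finset V) (adj : V → V → Prop)
    (G : SimpleGraph {x // x ∈ A}) (hG : ∀ u v, G.Adj u v ↔ u ≠ v ∧ adj u v)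
    (h : IsGraphOf4Polytope G) : ConicGraph A adj := by
  classical
  obtain ⟨d, S, hSf, hS4, ⟨φ⟩⟩ := h
  set P : Set (EuclideanSpace ℝ (Fin d)) := convexHull ℝ S with hP
  set X : Set (EuclideanSpace ℝ (Fin d)) := P.extremePoints ℝ with hX
  have hXS : X ⊆ S := extremePoints_convexHull_subset
  have hXf : X.Finite := hSf.subset hXS
  have hPc : IsCompact P := hSf.isCompact_convexHull ℝ
  have hPconv : Convex ℝ P := convex_convexHull ℝ S
  have hPX : convexHull ℝ X = P := by
    have h1 := closure_convexHull_extremePoints hPc hPconv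
    rw [(hXf.isCompact_convexHull ℝ).isClosed.closure_eq] at h1
    exact h1
  have hSne : S.Nonempty := by
    by_contra hne
    rw [Set.not_nonempty_iff_eq_empty] at hne
    rw [hne, vectorSpan_empty] at hS4
    simp at hS4
  obtain ⟨s0, hs0⟩ := hSne
  set W := vectorSpan ℝ S with hW
  have hSP : S ⊆ P := subset_convexHull ℝ S
  have hfin : Module.finrank ℝ (ℝ × W) = Module.finrank ℝ E5 := by
    rw [Module.finrank_prod, hS4]; simp [E5]
  let e : (ℝ × W) ≃ₗ[ℝ] E5 := LinearEquiv.ofFinrankEq _ _ hfin
  obtain ⟨π, hπ⟩ := LinearMap.exists_leftInverse_of_injective W.subtype W.ker_subtype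
  have hπ' : ∀ w : EuclideanSpace ℝ (Fin d), w ∈ W → ((π w : W) : EuclideanSpace ℝ (Fin d)) = w := by
    intro w hw
    have := LinearMap.congr_fun hπ ⟨w, hw⟩
    simp only [LinearMap.comp_apply, Submodule.subtype_apply, LinearMap.id_apply] at this
    rw [this]
  let y : V → EuclideanSpace ℝ (Fin d) := fun v => if hv : v ∈ A then (φ ⟨v, hv⟩ : _) else s0
  have hy : ∀ v (hv : v ∈ A), y v = (φ ⟨v, hv⟩ : EuclideanSpace ℝ (Fin d)) := by
    intro v hv; simp only [y, dif_pos hv]
  have hyX : ∀ v ∈ A, y v ∈ X := by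
    intro v hv; rw [hy v hv]; exact (φ ⟨v, hv⟩).2
  have hyinj : ∀ u ∈ A, ∀ v ∈ A, y u = y v → u = v := by
    intro u hu v hv huv
    rw [hy u hu, hy v hv] at huv
    have := φ.injective (Subtype.ext huv)
    exact congrArg Subtype.val this
  have hysurj : ∀ x ∈ X, ∃ v ∈ A, y v = x := by
    intro x hx
    refine ⟨(φ.symm ⟨x, hx⟩).1, (φ.symm ⟨x, hx⟩).2, ?_⟩
    rw [hy _ (φ.symm ⟨x, hx⟩).2]
    have : φ ⟨(φ.symm ⟨x, hx⟩).1, (φ.symm ⟨x, hx⟩).2⟩ = ⟨x, hx⟩ := φ.apply_symm_apply _
    rw [this]
  have hyP : ∀ v ∈ A, y v ∈ P := fun v hv => extremePoints_subset (hyX v hv)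
  have hXimg : X = y '' (A : Set V) := by
    ext x; constructor
    · intro hx; obtain ⟨v, hv, rfl⟩ := hysurj x hx; exact ⟨v, hv, rfl⟩
    · rintro ⟨v, hv, rfl⟩; exact hyX v hv
  have hyW : ∀ v ∈ A, y v - s0 ∈ W := by
    intro v hv
    exact vsub_mem_vectorSpan ℝ (hXS (hyX v hv)) hs0
  let c : V → E5 := fun v => e (1, π (y v - s0))
  -- forward functionals
  have hfw : ∀ (a : ℝ) (l : EuclideanSpace ℝ (Fin d) →ₗ[ℝ] ℝ), ∃ f : E5 →ₗ[ℝ] ℝ,
      ∀ v ∈ A, f (c v) = a + l (y v) := by
    intro a l
    refine ⟨((a + l s0) • LinearMap.fst ℝ ℝ W + (l ∘ₗ W.subtype) ∘ₗ LinearMap.snd ℝ ℝ W) ∘ₗ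
      e.symm.toLinearMap, ?_⟩
    intro v hv
    simp only [c, LinearMap.comp_apply, LinearEquiv.coe_coe, LinearEquiv.symm_apply_apply,
      LinearMap.add_apply, LinearMap.smul_apply, LinearMap.fst_apply, LinearMap.snd_apply,
      Submodule.subtype_apply, smul_eq_mul, mul_one]
    rw [hπ' _ (hyW v hv), map_sub]; ring
  -- backward
  have hbw : ∀ f : E5 →ₗ[ℝ] ℝ, ∃ (a : ℝ) (l : EuclideanSpace ℝ (Fin d) →ₗ[ℝ] ℝ),
      ∀ v ∈ A, f (c v) = a + l (y v) := by
    intro f
    refine ⟨f (e (1, -π s0)), (f ∘ₗ e.toLinearMap) ∘ₗ (LinearMap.inr ℝ ℝ W) ∘ₗ π, ?_⟩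
    intro v hv
    simp only [c, LinearMap.comp_apply, LinearEquiv.coe_coe, LinearMap.inr_apply]
    rw [← map_add, ← map_add]
    congr 2
    ext1
    · simp
    · simp only [map_sub, Prod.mk_add_mk]; abel
  refine ⟨c, ⟨?_, ?_⟩, ?_, ?_⟩
  · obtain ⟨f, hf⟩ := hfw 1 0
    exact ⟨f, fun w hw => by rw [hf w hw]; simp⟩
  · intro v hv
    have hvX := hyX v hv
    have hnot : y v ∉ convexHull ℝ (X \ {y v}) := by
      have h1 := (hPconv.mem_extremePoints_iff_mem_sdiff_convexHull_sdiff).1 hvX
      intro h2
      exact h1.2 (convexHull_mono (Set.sdiff_subset_sdiff_left extremePoints_subset) h2)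
    have hcl : IsClosed (convexHull ℝ (X \ {y v})) :=
      ((hXf.subset Set.sdiff_subset).isCompact_convexHull ℝ).isClosed
    obtain ⟨l, u, hl1, hl2⟩ := geometric_hahn_banach_closed_point (convex_convexHull ℝ _) hcl hnot
    obtain ⟨f, hf⟩ := hfw (l (y v)) (-(l : EuclideanSpace ℝ (Fin d) →ₗ[ℝ] ℝ))
    have hval : ∀ w ∈ A, f (c w) = l (y v) - l (y w) := by
      intro w hw; rw [hf w hw]; simp [sub_eq_add_neg]
    have hlt : ∀ w ∈ A, w ≠ v → 0 < f (c w) := by
      intro w hw hwv
      rw [hval w hw]
      have : y w ∈ convexHull ℝ (X \ {y v}) :=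
        subset_convexHull ℝ _ ⟨hyX w hw, fun h => hwv (hyinj w hw v hv h)⟩
      have := hl1 _ this
      linarith
    refine ⟨by simpa using hv, f, ?_, ?_⟩
    · intro w hw
      by_cases hwv : w = v
      · subst hwv; rw [hval w hw]; simp
      · exact (hlt w hw hwv).le
    · intro w hw
      constructor
      · intro h0
        by_contra hne
        have := hlt w hw hne
        linarith
      · intro hwv
        rw [Set.mem_singleton_iff] at hwv
        subst hwv; rw [hval w hw]; simp
  · by_contra hne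
    obtain ⟨f, hf0, hfle⟩ := Submodule.exists_le_ker_of_lt_top _ (lt_top_iff_ne_top.2 hne)
    apply hf0
    have hfc : ∀ v ∈ A, f (c v) = 0 := fun v hv => hfle (subset_span ⟨v, hv, rfl⟩)
    -- affine function vanishes on P
    set a := f (e (1, -π s0)) with ha
    set l : EuclideanSpace ℝ (Fin d) →ₗ[ℝ] ℝ := (f ∘ₗ e.toLinearMap) ∘ₗ (LinearMap.inr ℝ ℝ W) ∘ₗ π
      with hl
    have hval : ∀ v ∈ A, f (c v) = a + l (y v) := by
      intro v hv
      simp only [c, a, l, LinearMap.comp_apply, LinearEquiv.coe_coe, LinearMap.inr_apply]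
      rw [← map_add, ← map_add]
      congr 2
      ext1
      · simp
      · simp only [map_sub, Prod.mk_add_mk]; abel
    have hP0 : ∀ x ∈ P, a + l x = 0 := by
      intro x hx
      rw [← hPX] at hx
      have hXz : ∀ z ∈ X, a + l z = 0 := by
        intro z hz
        obtain ⟨v, hv, rfl⟩ := hysurj z hz
        rw [← hval v hv, hfc v hv]
      exact f2_zero X a l hXz hx
    have hs0' := hP0 s0 (hSP hs0)
    have hlW : ∀ w ∈ W, l w = 0 := by
      intro w hw
      rw [hW, vectorSpan_eq_span_vsub_set_right ℝ hs0] at hw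
      have : span ℝ ((fun x => x -ᵥ s0) '' S) ≤ LinearMap.ker l := by
        rw [span_le]
        rintro _ ⟨x, hx, rfl⟩
        have := hP0 x (hSP hx)
        simp only [vsub_eq_sub, SetLike.mem_coe, LinearMap.mem_ker, map_sub]
        linarith
      exact this hw
    have h2 : ∀ w : W, f (e (0, w)) = 0 := by
      intro w
      have h3 := hlW w w.2
      simp only [l, LinearMap.comp_apply, LinearEquiv.coe_coe, LinearMap.inr_apply] at h3
      have h4 : π (w : EuclideanSpace ℝ (Fin d)) = w := by
        apply Subtype.ext; exact hπ' _ w.2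
      rw [h4] at h3
      exact h3
    have h1 : f (e (1, 0)) = 0 := by
      have h5 : (1, (0 : W)) = ((1 : ℝ), -π s0) + (0, π s0) := by
        ext1 <;> simp
      rw [h5, map_add, map_add]
      have h6 : f (e (0, π s0)) = l s0 := by
        simp only [l, LinearMap.comp_apply, LinearEquiv.coe_coe, LinearMap.inr_apply]
      rw [h6]; exact hs0'
    apply LinearMap.ext
    intro z
    obtain ⟨⟨t, w⟩, rfl⟩ := e.surjective z
    have h7 : ((t, w) : ℝ × W) = t • ((1 : ℝ), (0 : W)) + (0, w) := by
      ext1 <;> simp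
    rw [h7, map_add, map_add, map_smul, map_smul, h1, h2]; simp
  · intro u hu v hv huv
    have hadj : adj u v ↔ IsExposed ℝ P (segment ℝ (y u) (y v)) := by
      have h1 := hG ⟨u, hu⟩ ⟨v, hv⟩
      have h2 := φ.map_adj_iff (v := ⟨u, hu⟩) (w := ⟨v, hv⟩)
      have h3 : (⟨u, hu⟩ : {x // x ∈ A}) ≠ ⟨v, hv⟩ := fun h => huv (congrArg Subtype.val h)
      have h4 : adj u v ↔ G.Adj ⟨u, hu⟩ ⟨v, hv⟩ := by
        rw [h1]; exact ⟨fun h => ⟨h3, h⟩, fun h => h.2⟩
      rw [h4, ← h2]
      rw [hy u hu, hy v hv]
      constructor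
      · intro h; exact h.2
      · intro h; exact ⟨fun h5 => h3 (φ.injective h5), h⟩
    rw [hadj]
    have hseg : segment ℝ (y u) (y v) ⊆ P := hPconv.segment_subset (hyP u hu) (hyP v hv)
    constructor
    · rintro ⟨-, f, hf1, hf2⟩ -
      obtain ⟨a, l, hl⟩ := hbw f
      refine ⟨-(LinearMap.toContinuousLinearMap l), ?_⟩
      have hgX : ∀ z ∈ X, 0 ≤ a + l z := by
        intro z hz
        obtain ⟨w, hw, rfl⟩ := hysurj z hz
        rw [← hl w hw]; exact hf1 w hw
      have hgP : ∀ z ∈ P, 0 ≤ a + l z := by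
        intro z hz
        rw [← hPX] at hz
        exact f2_nonneg X a l hgX hz
      have hgu : a + l (y u) = 0 := by
        rw [← hl u hu]; exact (hf2 u hu).2 (by simp)
      have hgv : a + l (y v) = 0 := by
        rw [← hl v hv]; exact (hf2 v hv).2 (by simp)
      ext x
      constructor
      · intro hx
        refine ⟨hseg hx, ?_⟩
        intro z hz
        obtain ⟨s, t, hs, ht, hst, rfl⟩ := hx
        have h1 : a + l (s • y u + t • y v) = 0 := by
          simp only [map_add, map_smul, smul_eq_mul]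
          have h2 : a + (s * l (y u) + t * l (y v)) = s * (a + l (y u)) + t * (a + l (y v)) := by
            have : a = s * a + t * a := by rw [← add_mul, hst, one_mul]
            linarith
          rw [h2, hgu, hgv]; simp
        have h3 := hgP z hz
        simp only [neg_apply, LinearMap.coe_toContinuousLinearMap']
        linarith
      · rintro ⟨hxP, hmax⟩
        have h1 := hmax (y u) (hyP u hu)
        simp only [neg_apply, LinearMap.coe_toContinuousLinearMap'] at h1
        have h2 := hgP x hxP
        have hx0 : a + l x = 0 := by linarith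
        rw [← hPX] at hxP
        rcases f2_face X a l hgX hxP with h3 | h3
        · linarith
        · rw [← convexHull_pair]
          refine convexHull_mono ?_ h3
          rintro z ⟨hzX, hz0⟩
          obtain ⟨w, hw, rfl⟩ := hysurj z hzX
          rw [← hl w hw] at hz0
          have := (hf2 w hw).1 hz0
          rcases this with rfl | hwv
          · simp
          · rw [Set.mem_singleton_iff] at hwv; subst hwv; simp
    · intro hexp
      obtain ⟨l, hl⟩ := hexp ⟨y u, left_mem_segment ℝ _ _⟩
      have hmu : ∀ z ∈ P, l z ≤ l (y u) := by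
        have : y u ∈ {x | x ∈ P ∧ ∀ y ∈ P, l y ≤ l x} := hl ▸ left_mem_segment ℝ (y u) (y v)
        exact this.2
      obtain ⟨f, hf⟩ := hfw (l (y u)) (-(l : EuclideanSpace ℝ (Fin d) →ₗ[ℝ] ℝ))
      have hval : ∀ w ∈ A, f (c w) = l (y u) - l (y w) := by
        intro w hw; rw [hf w hw]; simp [sub_eq_add_neg]
      refine ⟨?_, f, ?_, ?_⟩
      · intro z hz
        rcases hz with rfl | hz
        · exact hu
        · rw [Set.mem_singleton_iff] at hz; subst hz; exact hv
      · intro w hw
        rw [hval w hw]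
        have := hmu _ (hyP w hw)
        linarith
      · intro w hw
        rw [hval w hw]
        constructor
        · intro h0
          have hmem : y w ∈ segment ℝ (y u) (y v) := by
            rw [hl]
            refine ⟨hyP w hw, fun z hz => ?_⟩
            have := hmu z hz
            linarith
          have hext := (mem_extremePoints_iff_forall_segment.1 (hyX w hw)).2 _ (hyP u hu) _
            (hyP v hv) hmem
          rcases hext with h1 | h1
          · left; exact (hyinj u hu w hw h1).symm
          · right; exact (hyinj v hv w hw h1).symm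
        · intro hwuv
          rcases hwuv with rfl | hwv
          · simp
          · rw [Set.mem_singleton_iff] at hwv
            subst hwv
            have : y w ∈ {x | x ∈ P ∧ ∀ y ∈ P, l y ≤ l x} := hl ▸ right_mem_segment ℝ (y u) (y w)
            have h1 := this.2 _ (hyP u hu)
            have h2 := hmu _ (hyP w hw)
            linarith

end Pool.Agent.Helper50.G4
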