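import Pool.Agent.Helper22.G4.Cone

/-! # G4-P2: faces of faces, restriction, sub-simplices -/

namespace Pool.Agent.Helper50.G4

open Submodule Pool.Agent.Helper22.G4

variable {V E : Type*} [AddCommGroup E] [Module ℝ E]

/-- G4-P2a (restriction of faces). -/
theorem FaceOn.restrict {c : V → E} {A B : Finset V} {Z : Set V} (h : FaceOn c A Z) (hB : B ⊆ A)
    (hZ : Z ⊆ B) : FaceOn c B Z := by
  obtain ⟨-, f, h1, h2⟩ := h
  exact ⟨hZ, f, fun w hw => h1 w (hB hw), fun w hw => h2 w (hB hw)⟩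

/-- G4-P2b (a face of a face is a face). -/
theorem FaceOn.trans {c : V → E} {A B : Finset V} {Z : Set V} (hB : FaceOn c A (B : Set V))
    (h : FaceOn c B Z) : FaceOn c A Z := by
  obtain ⟨hBA, f, hf1, hf2⟩ := hB
  obtain ⟨hZB, g, hg1, hg2⟩ := h
  set N : ℝ := 1 + ∑ w ∈ A, |g (c w)| / |f (c w)| with hN
  have key : ∀ w ∈ A, w ∉ B → 0 < N * f (c w) + g (c w) := by
    intro w hw hwB
    have h1 : f (c w) ≠ 0 := fun h => hwB ((hf2 w hw).1 h)
    have h2 : 0 < f (c w) := lt_of_le_of_ne (hf1 w hw) (Ne.symm h1)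
    have h3 : |g (c w)| / |f (c w)| ≤ ∑ w ∈ A, |g (c w)| / |f (c w)| :=
      Finset.single_le_sum (f := fun w => |g (c w)| / |f (c w)|)
        (fun _ _ => div_nonneg (abs_nonneg _) (abs_nonneg _)) hw
    have h4 : |g (c w)| / f (c w) < N := by
      rw [abs_of_pos h2] at h3
      linarith
    rw [div_lt_iff₀ h2] at h4
    have := neg_abs_le (g (c w))
    linarith
  have hN0 : 0 ≤ N := by
    have : 0 ≤ ∑ w ∈ A, |g (c w)| / |f (c w)| :=
      Finset.sum_nonneg fun _ _ => div_nonneg (abs_nonneg _) (abs_nonneg _)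
    linarith
  refine ⟨hZB.trans hBA, N • f + g, ?_, ?_⟩
  · intro w hw
    simp only [LinearMap.add_apply, LinearMap.smul_apply, smul_eq_mul]
    by_cases hwB : w ∈ B
    · exact add_nonneg (mul_nonneg hN0 (hf1 w hw)) (hg1 w hwB)
    · exact (key w hw hwB).le
  · intro w hw
    simp only [LinearMap.add_apply, LinearMap.smul_apply, smul_eq_mul]
    by_cases hwB : w ∈ B
    · rw [(hf2 w hw).2 hwB, mul_zero, zero_add]
      exact hg2 w hwB
    · exact ⟨fun h => absurd h (key w hw hwB).ne', fun h => absurd (hZB h) hwB⟩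

/-- G4-P2c (restriction of configurations). -/
theorem Conf.restrict {c : V → E} {A B : Finset V} (h : Conf c A) (hB : B ⊆ A) : Conf c B := by
  obtain ⟨f, hf⟩ := h.pos
  refine ⟨⟨f, fun w hw => hf w (hB hw)⟩, fun v hv => ?_⟩
  exact FaceOn.restrict (h.vert v (hB hv)) hB (Set.singleton_subset_iff.2 hv)

/-- G4-P2d (sub-simplices of a simplex face are faces). -/
theorem FaceOn.of_simplex {c : V → E} {A : Finset V} {T : Finset V} (hT : FaceOn c A (T : Set V))
    (hli : LinearIndependent ℝ (fun t : T => c t)) {S : Set V} (hS : S ⊆ T) : FaceOn c A S := by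
  classical
  refine FaceOn.trans hT ?_
  let b := Module.Basis.span hli
  obtain ⟨l, hl⟩ := LinearMap.exists_extend
    (b.constr ℝ (fun t : T => if (t : V) ∈ S then (0 : ℝ) else 1))
  have hlc : ∀ t : T, l (c t) = if (t : V) ∈ S then (0 : ℝ) else 1 := by
    intro t
    have h1 := LinearMap.congr_fun hl (b t)
    rw [Module.Basis.constr_basis] at h1
    rw [← h1, LinearMap.comp_apply, Submodule.subtype_apply, Module.Basis.span_apply]
  refine ⟨hS, l, ?_, ?_⟩
  · intro w hw
    rw [hlc ⟨w, hw⟩]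
    split_ifs <;> norm_num
  · intro w hw
    rw [hlc ⟨w, hw⟩]
    by_cases h : w ∈ S
    · simp [h]
    · simp [h]

end Pool.Agent.Helper50.G4
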