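import Pool.Agent.Helper22.G4.Real
import Pool.Agent.Helper22.G4.St.C0
import Pool.Agent.Helper22.G4.St.R16

/-! # G4-R12: validity of the inequalities `GX`, `GY`, `T0` -/

namespace Pool.Agent.Helper50.G4

open Submodule Filter Pool.Agent.Helper22.G4

theorem r12_quad {α β γ : ℝ} (hα : 0 < α) : ∀ᶠ m : ℝ in atTop, 0 < α * m ^ 2 + β * m + γ := by
  filter_upwards [eventually_ge_atTop (1 + (|β| + |γ|) / α)] with m hm
  have h0 : 0 ≤ (|β| + |γ|) / α := by positivity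
  have hm1 : 1 ≤ m := by linarith
  have h1 : |β| + |γ| ≤ α * (m - 1) := by
    have : (|β| + |γ|) / α ≤ m - 1 := by linarith
    rw [div_le_iff₀ hα] at this
    linarith
  have h2 := neg_abs_le β
  have h3 := neg_abs_le γ
  have h4 : 0 ≤ |β| := abs_nonneg β
  have h5 : 0 ≤ |γ| := abs_nonneg γ
  nlinarith [mul_le_mul_of_nonneg_right h1 (show 0 ≤ m by linarith),
    mul_le_mul_of_nonneg_right h2 (show 0 ≤ m by linarith), mul_nonneg h5 (show 0 ≤ m - 1 by linarith)]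

theorem r12_gen {e f s r t1 t0 y1 y0 z1 z0 c3 c4 : ℝ} (hs : 0 < s)
    (hT : 0 < t1 + c3 * y1 + c4 * z1) : ∀ᶠ m : ℝ in atTop,
    0 < (e * (y1 * m + y0) + f * (z1 * m + z0)) +
      (s * m + r) * ((t1 * m + t0) + c3 * (y1 * m + y0) + c4 * (z1 * m + z0)) := by
  filter_upwards [r12_quad (α := s * (t1 + c3 * y1 + c4 * z1))
    (β := e * y1 + f * z1 + s * (t0 + c3 * y0 + c4 * z0) + r * (t1 + c3 * y1 + c4 * z1))
    (γ := e * y0 + f * z0 + r * (t0 + c3 * y0 + c4 * z0)) (mul_pos hs hT)] with m hm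
  refine lt_of_lt_of_eq hm ?_
  ring

theorem r12_pages (g : ℕ) : 1 ≤ gX g ∧ 1 ≤ gY g ∧ (gX g = gY g + 1 ∨ gY g = gX g + 1) := by
  unfold gX gY
  split_ifs <;> omega

theorem r12_inj {g g' : ℕ} (hne : g' ≠ g) :
    ¬ ((gX g' = gX g ∨ gX g' = gY g) ∧ (gY g' = gX g ∨ gY g' = gY g)) := by
  unfold gX gY
  split_ifs <;> omega

theorem r12_pos {a X Y : ℕ} (h : X = Y + 1 ∨ Y = X + 1) (h1 : a ≠ X) (h2 : a ≠ Y) :
    (0 : ℝ) < ((a : ℝ) - X) * (a - Y) := by
  rcases (by omega : (a < X ∧ a < Y) ∨ (X < a ∧ Y < a)) with ⟨h3, h4⟩ | ⟨h3, h4⟩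
  · have h5 : (a : ℝ) < X := by exact_mod_cast h3
    have h6 : (a : ℝ) < Y := by exact_mod_cast h4
    exact mul_pos_of_neg_of_neg (by linarith) (by linarith)
  · have h5 : (X : ℝ) < a := by exact_mod_cast h3
    have h6 : (Y : ℝ) < a := by exact_mod_cast h4
    exact mul_pos (by linarith) (by linarith)

theorem r12_nonneg {a X Y : ℕ} (h : X = Y + 1 ∨ Y = X + 1) :
    (0 : ℝ) ≤ ((a : ℝ) - X) * (a - Y) := by
  by_cases h1 : a = X
  · rw [h1]; simp
  · by_cases h2 : a = Y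
    · rw [h2]; simp
    · exact (r12_pos h h1 h2).le

/-- positivity of the leading coefficient -/
theorem r12_lead {g g' : ℕ} (hne : g' ≠ g) :
    0 < (2 : ℝ) + -((gX g : ℝ) + gY g) / (gX g * gY g) * (gX g' + gY g') +
      1 / (gX g * gY g) * (gX g' ^ 2 + gY g' ^ 2) := by
  obtain ⟨hX, hY, hXY⟩ := r12_pages g
  have hX' : (0 : ℝ) < gX g := by exact_mod_cast hX
  have hY' : (0 : ℝ) < gY g := by exact_mod_cast hY
  have e : (2 : ℝ) + -((gX g : ℝ) + gY g) / (gX g * gY g) * (gX g' + gY g') +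
      1 / (gX g * gY g) * (gX g' ^ 2 + gY g' ^ 2) =
      (((gX g' : ℝ) - gX g) * (gX g' - gY g) + ((gY g' : ℝ) - gX g) * (gY g' - gY g)) /
        (gX g * gY g) := by
    field_simp
    ring
  rw [e]
  apply div_pos _ (mul_pos hX' hY')
  by_cases h1 : gX g' = gX g ∨ gX g' = gY g
  · by_cases h2 : gY g' = gX g ∨ gY g' = gY g
    · exact absurd ⟨h1, h2⟩ (r12_inj hne)
    · push Not at h2
      exact add_pos_of_nonneg_of_pos (r12_nonneg hXY) (r12_pos hXY h2.1 h2.2)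
  · push Not at h1
    exact add_pos_of_pos_of_nonneg (r12_pos hXY h1.1 h1.2) (r12_nonneg hXY)

/-- the values of the functionals -/
theorem fGX_vec (m : ℝ) (g : ℕ) (x h t y z : ℝ) : Geo.fGX m g (vec x h t y z) =
    ((gX g : ℝ) / (gY g * (gX g - gY g)) * y + -1 / (gY g * (gX g - gY g)) * z) +
      m * (t + -((gX g : ℝ) + gY g) / (gX g * gY g) * y + 1 / (gX g * gY g) * z) := by
  simp only [Geo.fGX, bX, b0, LinearMap.add_apply, LinearMap.smul_apply, lin_vec, smul_eq_mul]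
  ring

theorem fGY_vec (m : ℝ) (g : ℕ) (x h t y z : ℝ) : Geo.fGY m g (vec x h t y z) =
    ((gY g : ℝ) / (gX g * (gY g - gX g)) * y + -1 / (gX g * (gY g - gX g)) * z) +
      (m - 1) * (t + -((gX g : ℝ) + gY g) / (gX g * gY g) * y + 1 / (gX g * gY g) * z) := by
  simp only [Geo.fGY, bX, b0, LinearMap.add_apply, LinearMap.smul_apply, lin_vec, smul_eq_mul]
  ring

theorem fT_vec (m : ℝ) (g : ℕ) (x h t y z : ℝ) : Geo.fT m g (vec x h t y z) =
    (((gY g : ℝ) / (gX g * (gY g - gX g)) + (gX g : ℝ) / (gY g * (gX g - gY g))) * y +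
      (-1 / (gX g * (gY g - gX g)) + -1 / (gY g * (gX g - gY g))) * z) +
      (2 * m) * (t + -((gX g : ℝ) + gY g) / (gX g * gY g) * y + 1 / (gX g * gY g) * z) := by
  simp only [Geo.fT, bX, b0, LinearMap.add_apply, LinearMap.smul_apply, lin_vec, smul_eq_mul]
  ring

variable {I : NF} (G : Geo I)

theorem c_u (h m : ℝ) (a i j : ℕ) :
    G.c h m (Vx.u a i j) = vec (G.X a i) (G.H a i) 1 a ((a : ℝ) ^ 2) := by
  simp [Geo.c, Vx.u]

theorem c_b1 (h m : ℝ) : G.c h m Vx.b1 = vec 1 (G.al I.N) 0 0 0 := by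
  simp [Geo.c, Vx.b1]

theorem c_b2 (h m : ℝ) : G.c h m Vx.b2 = vec (-1) (-G.al 0) 0 0 0 := by
  simp [Geo.c, Vx.b2]

theorem c_p (h m : ℝ) (g : ℕ) : G.c h m (Vx.p g) = vec 0 (m * h) (2 * m + -1)
    (((gX g : ℝ) + gY g) * m + 0) (((gX g : ℝ) ^ 2 + gY g ^ 2) * m + 0) := by
  simp [Geo.c, Vx.p]
  congr 1 <;> ring

theorem c_q (h m : ℝ) (g : ℕ) : G.c h m (Vx.q g) = vec 0 (m * h) (2 * m + -1)
    (((gX g : ℝ) + gY g) * m + (gY g - gX g)) (((gX g : ℝ) ^ 2 + gY g ^ 2) * m +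
      (gY g ^ 2 - gX g ^ 2)) := by
  simp [Geo.c, Vx.q]
  congr 1 <;> ring

theorem mem_GX_u {N b g a i j : ℕ} :
    Fc.mem (Fc.GX N b g) (Vx.u a i j) = true ↔ a = b ∧ i ≤ N := by
  rw [Fc.mem_u]; simp [Fc.GX]

theorem mem_GY_u {N b g a i j : ℕ} :
    Fc.mem (Fc.GY N b g) (Vx.u a i j) = true ↔ a = b ∧ i ≤ N := by
  rw [Fc.mem_u]; simp [Fc.GY]

theorem mem_GX_p {N b g g' : ℕ} : Fc.mem (Fc.GX N b g) (Vx.p g') = true ↔ g' = g := by
  rw [Fc.mem_p]; simp [Fc.GX]; omega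

theorem mem_GX_q {N b g g' : ℕ} : ¬ Fc.mem (Fc.GX N b g) (Vx.q g') = true := by
  rw [Fc.mem_q]; simp [Fc.GX]

theorem mem_GY_p {N b g g' : ℕ} : ¬ Fc.mem (Fc.GY N b g) (Vx.p g') = true := by
  rw [Fc.mem_p]; simp [Fc.GY]

theorem mem_GY_q {N b g g' : ℕ} : Fc.mem (Fc.GY N b g) (Vx.q g') = true ↔ g' = g := by
  rw [Fc.mem_q]; simp [Fc.GY]; omega

theorem mem_T0_p {N M g g' : ℕ} : Fc.mem (Fc.T0 M N g) (Vx.p g') = true ↔ g' = g := by
  rw [Fc.mem_p]; simp [Fc.T0]; omega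

theorem mem_T0_q {N M g g' : ℕ} : Fc.mem (Fc.T0 M N g) (Vx.q g') = true ↔ g' = g := by
  rw [Fc.mem_q]; simp [Fc.T0]; omega

/-- positive values are not zero and not incident -/
theorem r12_ok {r : ℝ} {b : Bool} (hr : 0 < r) (hb : b ≠ true) : 0 ≤ r ∧ (r = 0 ↔ b = true) :=
  ⟨hr.le, fun h => absurd h hr.ne', fun h => absurd h hb⟩

theorem r12_ok0 {r : ℝ} {b : Bool} (hr : r = 0) (hb : b = true) : 0 ≤ r ∧ (r = 0 ↔ b = true) :=
  ⟨hr.ge, fun _ => hb, fun _ => hr⟩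

theorem r12_vertex {I : NF} (hI : I.OK) (G : Geo I) (h : ℝ) (g : ℕ) {v : Vx}
    (hv : v ∈ I.data.verts) : ∀ᶠ m : ℝ in atTop,
    (0 ≤ Geo.fGX m g (G.c h m v) ∧
      (Geo.fGX m g (G.c h m v) = 0 ↔ Fc.mem (Fc.GX I.N (gX g) g) v = true)) ∧
    (0 ≤ Geo.fGY m g (G.c h m v) ∧
      (Geo.fGY m g (G.c h m v) = 0 ↔ Fc.mem (Fc.GY I.N (gY g) g) v = true)) ∧
    (0 ≤ Geo.fT m g (G.c h m v) ∧
      (Geo.fT m g (G.c h m v) = 0 ↔ Fc.mem (Fc.T0 I.M I.N g) v = true)) := by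
  obtain ⟨hX, hY, hXY⟩ := r12_pages g
  have hX' : (0 : ℝ) < gX g := by exact_mod_cast hX
  have hY' : (0 : ℝ) < gY g := by exact_mod_cast hY
  have hXne : (gX g : ℝ) ≠ 0 := hX'.ne'
  have hYne : (gY g : ℝ) ≠ 0 := hY'.ne'
  have hne : gX g ≠ gY g := by omega
  have hne1 : (gX g : ℝ) - gY g ≠ 0 := by
    intro h0
    exact hne (by exact_mod_cast sub_eq_zero.1 h0)
  have hne2 : (gY g : ℝ) - gX g ≠ 0 := by
    intro h0
    exact hne (by exact_mod_cast (sub_eq_zero.1 h0).symm)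
  rcases NF.verts_cases hv with rfl | rfl | ⟨a, i, j, hpu, rfl⟩ | ⟨g', hg', rfl⟩ | ⟨g', hg', rfl⟩
  · refine Eventually.of_forall fun m => ?_
    rw [c_b1, fGX_vec, fGY_vec, fT_vec]
    refine ⟨r12_ok0 (by ring) ?_, r12_ok0 (by ring) ?_, r12_ok0 (by ring) ?_⟩
    · rw [Fc.mem_b1]; rfl
    · rw [Fc.mem_b1]; rfl
    · rw [Fc.mem_b1]; rfl
  · refine Eventually.of_forall fun m => ?_
    rw [c_b2, fGX_vec, fGY_vec, fT_vec]
    refine ⟨r12_ok0 (by ring) ?_, r12_ok0 (by ring) ?_, r12_ok0 (by ring) ?_⟩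
    · rw [Fc.mem_b2]; rfl
    · rw [Fc.mem_b2]; rfl
    · rw [Fc.mem_b2]; rfl
  · obtain ⟨hij, hjN, haM⟩ := NF.pu_lt hI hpu
    have hm3 : ¬ Fc.mem (Fc.T0 I.M I.N g) (Vx.u a i j) = true := by
      rw [Fc.mem_u]
      simp only [Fc.T0]
      omega
    by_cases h1 : a = gX g
    · refine (eventually_gt_atTop (1 : ℝ)).mono fun m hm => ?_
      rw [c_u, fGX_vec, fGY_vec, fT_vec, h1]
      refine ⟨r12_ok0 ?_ ?_, r12_ok ?_ ?_, r12_ok ?_ ?_⟩
      · field_simp
        ring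
      · rw [mem_GX_u]
        omega
      · have e : ((gY g : ℝ) / (gX g * (gY g - gX g)) * gX g +
            -1 / (gX g * (gY g - gX g)) * (gX g : ℝ) ^ 2) +
            (m - 1) * (1 + -((gX g : ℝ) + gY g) / (gX g * gY g) * gX g +
              1 / (gX g * gY g) * (gX g : ℝ) ^ 2) = 1 := by
          field_simp
          ring
        rw [e]
        exact one_pos
      · rw [Ne, mem_GY_u]
        omega
      · have e : ((((gY g : ℝ) / (gX g * (gY g - gX g)) + (gX g : ℝ) / (gY g * (gX g - gY g))) *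
            gX g + (-1 / (gX g * (gY g - gX g)) + -1 / (gY g * (gX g - gY g))) * (gX g : ℝ) ^ 2) +
            (2 * m) * (1 + -((gX g : ℝ) + gY g) / (gX g * gY g) * gX g +
              1 / (gX g * gY g) * (gX g : ℝ) ^ 2)) = 1 := by
          field_simp
          ring
        rw [e]
        exact one_pos
      · rw [← h1]
        exact hm3
    · by_cases h2 : a = gY g
      · refine (eventually_gt_atTop (1 : ℝ)).mono fun m hm => ?_
        rw [c_u, fGX_vec, fGY_vec, fT_vec, h2]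
        refine ⟨r12_ok ?_ ?_, r12_ok0 ?_ ?_, r12_ok ?_ ?_⟩
        · have e : ((gX g : ℝ) / (gY g * (gX g - gY g)) * gY g +
              -1 / (gY g * (gX g - gY g)) * (gY g : ℝ) ^ 2) +
              m * (1 + -((gX g : ℝ) + gY g) / (gX g * gY g) * gY g +
                1 / (gX g * gY g) * (gY g : ℝ) ^ 2) = 1 := by
            field_simp
            ring
          rw [e]
          exact one_pos
        · rw [Ne, mem_GX_u]
          omega
        · field_simp
          ring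
        · rw [mem_GY_u]
          omega
        · have e : ((((gY g : ℝ) / (gX g * (gY g - gX g)) + (gX g : ℝ) / (gY g * (gX g - gY g))) *
              gY g + (-1 / (gX g * (gY g - gX g)) + -1 / (gY g * (gX g - gY g))) * (gY g : ℝ) ^ 2) +
              (2 * m) * (1 + -((gX g : ℝ) + gY g) / (gX g * gY g) * gY g +
                1 / (gX g * gY g) * (gY g : ℝ) ^ 2)) = 1 := by
            field_simp
            ring
          rw [e]
          exact one_pos
        · rw [← h2]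
          exact hm3
      · have hlead : 0 < (1 : ℝ) + -((gX g : ℝ) + gY g) / (gX g * gY g) * a +
            1 / (gX g * gY g) * (a : ℝ) ^ 2 := by
          have e : (1 : ℝ) + -((gX g : ℝ) + gY g) / (gX g * gY g) * a +
              1 / (gX g * gY g) * (a : ℝ) ^ 2 =
              (((a : ℝ) - gX g) * (a - gY g)) / (gX g * gY g) := by
            field_simp
            ring
          rw [e]
          exact div_pos (r12_pos hXY h1 h2) (mul_pos hX' hY')
        have key : ∀ A s r : ℝ, 0 < s → ∀ᶠ m : ℝ in atTop,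
            0 < A + (s * m + r) * ((1 : ℝ) + -((gX g : ℝ) + gY g) / (gX g * gY g) * a +
            1 / (gX g * gY g) * (a : ℝ) ^ 2) := by
          intro A s r hs
          obtain ⟨L, hL⟩ : ∃ L, L = (1 : ℝ) + -((gX g : ℝ) + gY g) / (gX g * gY g) * a +
            1 / (gX g * gY g) * (a : ℝ) ^ 2 := ⟨_, rfl⟩
          rw [← hL] at hlead ⊢
          have hsL : 0 < s * L := mul_pos hs hlead
          filter_upwards [eventually_gt_atTop (-(A + r * L) / (s * L))] with m hm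
          rw [div_lt_iff₀ hsL] at hm
          linarith
        filter_upwards [key ((gX g : ℝ) / (gY g * (gX g - gY g)) * a +
            -1 / (gY g * (gX g - gY g)) * (a : ℝ) ^ 2) 1 0 one_pos,
          key ((gY g : ℝ) / (gX g * (gY g - gX g)) * a +
            -1 / (gX g * (gY g - gX g)) * (a : ℝ) ^ 2) 1 (-1) one_pos,
          key (((gY g : ℝ) / (gX g * (gY g - gX g)) + (gX g : ℝ) / (gY g * (gX g - gY g))) * a +
            (-1 / (gX g * (gY g - gX g)) + -1 / (gY g * (gX g - gY g))) * (a : ℝ) ^ 2) 2 0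
            two_pos] with m k1 k2 k3
        rw [c_u, fGX_vec, fGY_vec, fT_vec]
        refine ⟨r12_ok (lt_of_lt_of_eq k1 (by ring)) ?_, r12_ok (lt_of_lt_of_eq k2 (by ring)) ?_,
          r12_ok (lt_of_lt_of_eq k3 (by ring)) hm3⟩
        · rw [Ne, mem_GX_u]
          omega
        · rw [Ne, mem_GY_u]
          omega
  · by_cases hgg : g' = g
    · subst hgg
      refine Eventually.of_forall fun m => ?_
      rw [c_p, fGX_vec, fGY_vec, fT_vec]
      refine ⟨r12_ok0 ?_ ?_, r12_ok ?_ ?_, r12_ok0 ?_ ?_⟩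
      · field_simp
        ring
      · rw [Fc.mem_p]; rfl
      · refine lt_of_lt_of_eq one_pos ?_
        field_simp
        ring
      · exact mem_GY_p
      · field_simp
        ring
      · rw [Fc.mem_p]; rfl
    · have hl := r12_lead hgg
      filter_upwards [r12_gen (e := (gX g : ℝ) / (gY g * (gX g - gY g)))
          (f := -1 / (gY g * (gX g - gY g))) (s := 1) (r := 0) (t0 := -1) (y0 := 0) (z0 := 0)
          one_pos hl,
        r12_gen (e := (gY g : ℝ) / (gX g * (gY g - gX g)))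
          (f := -1 / (gX g * (gY g - gX g))) (s := 1) (r := -1) (t0 := -1) (y0 := 0) (z0 := 0)
          one_pos hl,
        r12_gen (e := ((gY g : ℝ) / (gX g * (gY g - gX g)) + (gX g : ℝ) / (gY g * (gX g - gY g))))
          (f := (-1 / (gX g * (gY g - gX g)) + -1 / (gY g * (gX g - gY g)))) (s := 2) (r := 0)
          (t0 := -1) (y0 := 0) (z0 := 0) two_pos hl] with m k1 k2 k3
      rw [c_p, fGX_vec, fGY_vec, fT_vec]
      refine ⟨r12_ok (lt_of_lt_of_eq k1 (by ring)) ?_, r12_ok (lt_of_lt_of_eq k2 (by ring)) ?_,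
          r12_ok (lt_of_lt_of_eq k3 (by ring)) ?_⟩
      · rw [Ne, mem_GX_p]
        exact hgg
      · exact mem_GY_p
      · rw [Ne, mem_T0_p]
        exact hgg
  · by_cases hgg : g' = g
    · subst hgg
      refine Eventually.of_forall fun m => ?_
      rw [c_q, fGX_vec, fGY_vec, fT_vec]
      refine ⟨r12_ok ?_ ?_, r12_ok0 ?_ ?_, r12_ok0 ?_ ?_⟩
      · refine lt_of_lt_of_eq one_pos ?_
        field_simp
        ring
      · exact mem_GX_q
      · field_simp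
        ring
      · rw [Fc.mem_q]; rfl
      · field_simp
        ring
      · rw [Fc.mem_q]; rfl
    · have hl := r12_lead hgg
      filter_upwards [r12_gen (e := (gX g : ℝ) / (gY g * (gX g - gY g)))
          (f := -1 / (gY g * (gX g - gY g))) (s := 1) (r := 0) (t0 := -1)
          (y0 := (gY g' : ℝ) - gX g') (z0 := (gY g' : ℝ) ^ 2 - gX g' ^ 2) one_pos hl,
        r12_gen (e := (gY g : ℝ) / (gX g * (gY g - gX g)))
          (f := -1 / (gX g * (gY g - gX g))) (s := 1) (r := -1) (t0 := -1)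
          (y0 := (gY g' : ℝ) - gX g') (z0 := (gY g' : ℝ) ^ 2 - gX g' ^ 2) one_pos hl,
        r12_gen (e := ((gY g : ℝ) / (gX g * (gY g - gX g)) + (gX g : ℝ) / (gY g * (gX g - gY g))))
          (f := (-1 / (gX g * (gY g - gX g)) + -1 / (gY g * (gX g - gY g)))) (s := 2) (r := 0)
          (t0 := -1) (y0 := (gY g' : ℝ) - gX g') (z0 := (gY g' : ℝ) ^ 2 - gX g' ^ 2)
          two_pos hl] with m k1 k2 k3
      rw [c_q, fGX_vec, fGY_vec, fT_vec]
      refine ⟨r12_ok (lt_of_lt_of_eq k1 (by ring)) ?_, r12_ok (lt_of_lt_of_eq k2 (by ring)) ?_,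
          r12_ok (lt_of_lt_of_eq k3 (by ring)) ?_⟩
      · exact mem_GX_q
      · rw [Ne, mem_GY_q]
        exact hgg
      · rw [Ne, mem_T0_q]
        exact hgg

/-- G4-R12 (validity of the inequalities `GX`, `GY`, `T0`). -/
theorem valid_GXY {I : NF} (hI : I.OK) (G : Geo I) (h : ℝ) : ∀ᶠ m : ℝ in Filter.atTop,
    ∀ g < 3 * I.ops.length, G.Valid h m (Fc.GX I.N (gX g) g) ∧ G.Valid h m (Fc.GY I.N (gY g) g) ∧
      G.Valid h m (Fc.T0 I.M I.N g) := by
  classical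
  have hN : I.N ≠ 0 := by
    have := (NF.size hI).2.2.1
    omega
  have hall := (eventually_all_finset (l := (atTop : Filter ℝ))
    (Finset.range (3 * I.ops.length) ×ˢ I.data.verts.toFinset)
    (p := fun gv m => (0 ≤ Geo.fGX m gv.1 (G.c h m gv.2) ∧
      (Geo.fGX m gv.1 (G.c h m gv.2) = 0 ↔ Fc.mem (Fc.GX I.N (gX gv.1) gv.1) gv.2 = true)) ∧
    (0 ≤ Geo.fGY m gv.1 (G.c h m gv.2) ∧
      (Geo.fGY m gv.1 (G.c h m gv.2) = 0 ↔ Fc.mem (Fc.GY I.N (gY gv.1) gv.1) gv.2 = true)) ∧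
    (0 ≤ Geo.fT m gv.1 (G.c h m gv.2) ∧
      (Geo.fT m gv.1 (G.c h m gv.2) = 0 ↔ Fc.mem (Fc.T0 I.M I.N gv.1) gv.2 = true)))).2
    (by
      intro gv hgv
      rw [Finset.mem_product, List.mem_toFinset] at hgv
      exact r12_vertex hI G h gv.1 hgv.2)
  filter_upwards [hall] with m hm g hg
  have hm' : ∀ v ∈ I.data.verts, _ := fun v hv =>
    hm (g, v) (Finset.mem_product.2 ⟨Finset.mem_range.2 hg, List.mem_toFinset.2 hv⟩)
  refine ⟨fun v hv => ?_, fun v hv => ?_, fun v hv => ?_⟩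
  · rw [Geo.phi_GX]
    exact (hm' v hv).1
  · rw [Geo.phi_GY (hN := hN)]
    exact (hm' v hv).2.1
  · rw [Geo.phi_T0 (hN := hN)]
    exact (hm' v hv).2.2

end Pool.Agent.Helper50.G4
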