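import Pool.Agent.Helper22.G4.Base
import Pool.Agent.Helper22.G4.GenFam
import Pool.Agent.Helper22.G4.St.C0

/-! # G4-S5: from directions to values -/

namespace Pool.Agent.Helper50.G4

open Submodule Pool.Agent.Helper22.G4

/-- Cramer's rule in the span of two vectors -/
theorem s5_cramer {E : Type*} [AddCommGroup E] [Module ℝ E] {b₁ b₂ u v : E}
    (hu : u ∈ span ℝ ({b₁, b₂} : Set E)) (hv : v ∈ span ℝ ({b₁, b₂} : Set E))
    (huv : ∀ s t : ℝ, s • u + t • v = 0 → s = 0 ∧ t = 0) {w : E}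
    (hw : w ∈ span ℝ ({b₁, b₂} : Set E)) : ∃ p q : ℝ, w = p • u + q • v := by
  obtain ⟨a1, c1, hu⟩ := mem_span_pair.1 hu
  obtain ⟨a2, c2, hv⟩ := mem_span_pair.1 hv
  obtain ⟨a, c, hw⟩ := mem_span_pair.1 hw
  have h1 : c2 • u + (-c1) • v = (a1 * c2 - a2 * c1) • b₁ := by
    rw [← hu, ← hv]; module
  have h2 : (-a2) • u + a1 • v = (a1 * c2 - a2 * c1) • b₂ := by
    rw [← hu, ← hv]; module
  have hdet : a1 * c2 - a2 * c1 ≠ 0 := by
    intro h0
    rw [h0, zero_smul] at h1 h2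
    obtain ⟨e1, e2⟩ := huv _ _ h1
    obtain ⟨e3, e4⟩ := huv _ _ h2
    have e5 : c1 = 0 := by linarith
    have : u = 0 := by rw [← hu, e4, e5]; simp
    have := (huv 1 0 (by rw [this]; simp)).1
    exact one_ne_zero this
  refine ⟨(a1 * c2 - a2 * c1)⁻¹ * (a * c2 - c * a2), (a1 * c2 - a2 * c1)⁻¹ * (c * a1 - a * c1), ?_⟩
  have h3 : (a1 * c2 - a2 * c1) • w = (a * c2 - c * a2) • u + (c * a1 - a * c1) • v := by
    rw [← hw, smul_add, smul_smul, smul_smul, mul_comm _ a, mul_comm _ c, ← smul_smul,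
      ← smul_smul, ← h1, ← h2]
    module
  calc w = (a1 * c2 - a2 * c1)⁻¹ • ((a1 * c2 - a2 * c1) • w) := by
        rw [smul_smul, inv_mul_cancel₀ hdet, one_smul]
    _ = _ := by rw [h3]; module

/-- G4-S5 (from directions to values). -/
theorem weak_of_dirs {I : NF} (hI : I.OK) (D : ℕ → E5) (b₁ b₂ : E5)
    (hD : ∀ l < I.K, D (pos l) ∈ span ℝ ({b₁, b₂} : Set E5))
    (hind : ∀ l < I.K, ∀ k < I.K, l ≠ k → LinearIndependent ℝ ![D (pos l), D (pos k)])
    (hops : ∀ d ∈ I.opds, ∃ r₁ r₂ r₃ r₄ r₅ r₆ : ℝ, r₁ ≠ 0 ∧ r₂ ≠ 0 ∧ r₃ ≠ 0 ∧ r₄ ≠ 0 ∧ r₅ ≠ 0 ∧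
      r₆ ≠ 0 ∧ r₁ • D d.y + r₂ • D d.i = r₃ • D d.z ∧ r₂ • D d.i + r₄ • D d.x = r₅ • D d.v ∧
      r₁ • D d.y + r₂ • D d.i + r₄ • D d.x = r₆ • D d.w) :
    I.Weak := by
  have hK : I.K = I.B + 3 + I.S := rfl
  have hli : ∀ l < I.K, ∀ k < I.K, l ≠ k → ∀ s t : ℝ, s • D (pos l) + t • D (pos k) = 0 →
      s = 0 ∧ t = 0 := fun l hl k hk hlk => LinearIndependent.pair_iff.1 (hind l hl k hk hlk)
  obtain ⟨u, hu⟩ : ∃ u, u = D (pos I.B) := ⟨_, rfl⟩
  obtain ⟨v, hv⟩ : ∃ v, v = D (pos (I.B + 1)) := ⟨_, rfl⟩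
  have huv : ∀ s t : ℝ, s • u + t • v = 0 → s = 0 ∧ t = 0 := by
    rw [hu, hv]
    exact hli _ (by omega) _ (by omega) (by omega)
  have huS : u ∈ span ℝ ({b₁, b₂} : Set E5) := hu ▸ hD _ (by omega)
  have hvS : v ∈ span ℝ ({b₁, b₂} : Set E5) := hv ▸ hD _ (by omega)
  -- coordinates
  have hco : ∀ l, ∃ pq : ℝ × ℝ, l < I.K → D (pos l) = pq.1 • u + pq.2 • v := by
    intro l
    by_cases hl : l < I.K
    · obtain ⟨p, q, h⟩ := s5_cramer huS hvS huv (hD l hl)
      exact ⟨(p, q), fun _ => h⟩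
    · exact ⟨(0, 0), fun h => absurd h hl⟩
  choose pq hpq using hco
  have hq : ∀ l < I.K, l ≠ I.B → (pq l).2 ≠ 0 := by
    intro l hl hne h0
    have h1 := hpq l hl
    rw [h0, zero_smul, add_zero] at h1
    have h2 := (hli l hl I.B (by omega) hne 1 (-(pq l).1) (by rw [h1, ← hu]; module)).1
    exact one_ne_zero h2
  have hp : ∀ l < I.K, l ≠ I.B + 1 → (pq l).1 ≠ 0 := by
    intro l hl hne h0
    have h1 := hpq l hl
    rw [h0, zero_smul, zero_add] at h1
    have h2 := (hli l hl (I.B + 1) (by omega) hne 1 (-(pq l).2) (by rw [h1, ← hv]; module)).1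
    exact one_ne_zero h2
  have hcoef : ∀ s t s' t' : ℝ, s • u + t • v = s' • u + t' • v → s = s' ∧ t = t' := by
    intro s t s' t' h
    have := huv (s - s') (t - t') (by
      have : (s - s') • u + (t - t') • v = (s • u + t • v) - (s' • u + t' • v) := by module
      rw [this, h, sub_self])
    exact ⟨sub_eq_zero.1 this.1, sub_eq_zero.1 this.2⟩
  obtain ⟨a, ha⟩ : ∃ a, a = (pq (I.B + 2)).1 := ⟨_, rfl⟩
  obtain ⟨b, hb⟩ : ∃ b, b = (pq (I.B + 2)).2 := ⟨_, rfl⟩
  have ha0 : a ≠ 0 := ha ▸ hp _ (by omega) (by omega)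
  have hb0 : b ≠ 0 := hb ▸ hq _ (by omega) (by omega)
  refine ⟨fun l => ((pq l).1 * b) / ((pq l).2 * a), ?_, ?_, ?_⟩
  · simp only [← ha, ← hb]
    field_simp
  · intro l hl h1 h2
    exact div_ne_zero (mul_ne_zero (hp l hl h2) hb0) (mul_ne_zero (hq l hl h1) ha0)
  · intro o ho
    obtain ⟨h1, h2, h3, h4, h5⟩ := hI.2 o ho
    obtain ⟨n, hn, hno⟩ := List.getElem_of_mem ho
    have hd : I.opd n o ∈ I.opds := by
      unfold NF.opds
      rw [List.mem_map]
      refine ⟨(o, n), ?_, rfl⟩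
      rw [List.mem_zipIdx_iff_getElem?]
      rw [List.getElem?_eq_getElem hn, hno]
    obtain ⟨r₁, r₂, r₃, r₄, r₅, r₆, k1, k2, k3, k4, k5, k6, e1, e2, e3⟩ := hops _ hd
    obtain ⟨mul, x, y, z⟩ := o
    simp only at h1 h2 h3 h4 h5
    have dy : (I.opd n (mul, x, y, z)).y = pos y := rfl
    have dx : (I.opd n (mul, x, y, z)).x = pos x := rfl
    have dz : (I.opd n (mul, x, y, z)).z = pos z := rfl
    have di : (I.opd n (mul, x, y, z)).i = pos I.B := rfl
    have dv : (I.opd n (mul, x, y, z)).v = pos (if mul then I.B + 2 else I.B + 1) := rfl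
    have dw : (I.opd n (mul, x, y, z)).w = pos (if mul then I.B + 1 else I.B) := rfl
    rw [dy, di, dz, hpq y (by omega), hpq z (by omega), ← hu] at e1
    have f1 := hcoef (r₁ * (pq y).1 + r₂) (r₁ * (pq y).2) (r₃ * (pq z).1) (r₃ * (pq z).2)
      (by
        calc _ = r₁ • ((pq y).1 • u + (pq y).2 • v) + r₂ • u := by module
          _ = _ := e1
          _ = _ := by module)
    have qx := hq x (by omega) (by omega)
    have qy := hq y (by omega) (by omega)
    have qz := hq z (by omega) (by omega)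
    cases mul with
    | false =>
      simp only [Bool.false_eq_true, if_false] at dv dw
      rw [di, dx, dv, hpq x (by omega), ← hu, ← hv] at e2
      rw [dy, di, dx, dw, hpq x (by omega), hpq y (by omega), ← hu] at e3
      have f2 := hcoef (r₂ + r₄ * (pq x).1) (r₄ * (pq x).2) 0 r₅
        (by
          calc _ = r₂ • u + r₄ • ((pq x).1 • u + (pq x).2 • v) := by module
            _ = _ := e2
            _ = _ := by module)
      have f3 := hcoef (r₁ * (pq y).1 + r₂ + r₄ * (pq x).1) (r₁ * (pq y).2 + r₄ * (pq x).2) r₆ 0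
        (by
          calc _ = r₁ • ((pq y).1 • u + (pq y).2 • v) + r₂ • u +
                r₄ • ((pq x).1 • u + (pq x).2 • v) := by module
            _ = _ := e3
            _ = _ := by module)
      unfold NF.Holds
      simp only [Bool.false_eq_true, if_false]
      have g1 : r₁ * (pq y).2 ≠ 0 := mul_ne_zero k1 qy
      rw [div_add_div _ _ (mul_ne_zero qx ha0) (mul_ne_zero qy ha0), div_eq_div_iff
        (mul_ne_zero qz ha0) (mul_ne_zero (mul_ne_zero qx ha0) (mul_ne_zero qy ha0))]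
      obtain ⟨f1a, f1b⟩ := f1
      obtain ⟨f2a, f2b⟩ := f2
      obtain ⟨f3a, f3b⟩ := f3
      have g2 : r₃ ≠ 0 := k3
      -- multiply by `r₁ r₃ r₄`
      have key : (pq z).1 * (pq x).2 * (pq y).2 =
          (pq x).1 * (pq y).2 * (pq z).2 + (pq x).2 * (pq y).1 * (pq z).2 := by
        apply mul_left_cancel₀ (mul_ne_zero k3 k4)
        linear_combination (-(pq x).2 * (pq y).2 * r₄) * f1a +
          (r₄ * (pq x).2 * (pq y).1 + r₄ * (pq x).1 * (pq y).2) * f1b -
          (r₁ * (pq y).2 * (pq y).2) * f2a + ((pq y).2 * r₂) * f3b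
      linear_combination (a * a * b) * key
    | true =>
      simp only [if_true] at dv dw
      rw [di, dx, dv, hpq x (by omega), hpq (I.B + 2) (by omega), ← hu, ← ha, ← hb] at e2
      rw [dy, di, dx, dw, hpq x (by omega), hpq y (by omega), ← hu, ← hv] at e3
      have f2 := hcoef (r₂ + r₄ * (pq x).1) (r₄ * (pq x).2) (r₅ * a) (r₅ * b)
        (by
          calc _ = r₂ • u + r₄ • ((pq x).1 • u + (pq x).2 • v) := by module
            _ = _ := e2
            _ = _ := by module)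
      have f3 := hcoef (r₁ * (pq y).1 + r₂ + r₄ * (pq x).1) (r₁ * (pq y).2 + r₄ * (pq x).2) 0 r₆
        (by
          calc _ = r₁ • ((pq y).1 • u + (pq y).2 • v) + r₂ • u +
                r₄ • ((pq x).1 • u + (pq x).2 • v) := by module
            _ = _ := e3
            _ = _ := by module)
      unfold NF.Holds
      simp only [if_true]
      rw [div_mul_div_comm, div_eq_div_iff
        (mul_ne_zero qz ha0) (mul_ne_zero (mul_ne_zero qx ha0) (mul_ne_zero qy ha0))]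
      obtain ⟨f1a, f1b⟩ := f1
      obtain ⟨f2a, f2b⟩ := f2
      obtain ⟨f3a, f3b⟩ := f3
      have key : a * ((pq z).1 * (pq x).2 * (pq y).2) = b * ((pq x).1 * (pq y).1 * (pq z).2) := by
        apply mul_left_cancel₀ (mul_ne_zero hb0 (mul_ne_zero k3 k4))
        linear_combination (b ^ 2 * (pq y).2 * r₂) * f3a - (a * b * r₄ * (pq x).2 * (pq y).2) * f1a +
          (b ^ 2 * r₄ * (pq x).1 * (pq y).1) * f1b +
          (a * b * (pq y).2 * (r₁ * (pq y).1 + r₂)) * f2b -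
          (b ^ 2 * (pq y).2 * (r₁ * (pq y).1 + r₂)) * f2a
      linear_combination (a * b) * key

end Pool.Agent.Helper50.G4
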